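import Mathlib
import Pool.Agent.Results.MP_e70d00_co.NoAbsoluteConstant

/-!
# Boolean functions of degree `t ≥ 2` on `S_n` far from all unions of `t`-cosets
-/

set_option autoImplicit false

namespace Pool.Agent.Y906.SD

open Finset Equiv Pool.Agent.Results.MP_e70d00_co.NoAbsoluteConstant

/-- patterns: the first three coordinates agree and the coordinates `3, ..., t` are true -/
def AP {n : ℕ} (t : ℕ) (p : Fin n → Prop) : Prop :=
  (∀ x y : Fin n, x.val ≤ 2 → y.val ≤ 2 → (p x ↔ p y)) ∧ ∀ x : Fin n, 3 ≤ x.val → x.val ≤ t → p x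

/-- the side of the value at `x` -/
def side {n : ℕ} (m : ℕ) (σ : Perm (Fin n)) (x : Fin n) : Prop := (σ x).val < m

open scoped Classical in
/-- the family -/
noncomputable def Fm (n m t : ℕ) : Finset (Perm (Fin n)) := univ.filter fun σ => AP t (side m σ)

theorem mem_Fm {n m t : ℕ} (σ : Perm (Fin n)) : σ ∈ Fm n m t ↔ AP t (side m σ) := by
  classical
  unfold Fm
  rw [mem_filter]
  simp

/-- flipping one coordinate leaves the pattern -/
theorem flip_notin {n t : ℕ} (ht : 2 ≤ t) (hn : t < n) (p q : Fin n → Prop) (hp : AP t p) (i : Fin n)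
    (hi : i.val ≤ t) (hqi : q i ↔ ¬ p i) (hq : ∀ x : Fin n, x.val ≤ t → x ≠ i → (q x ↔ p x)) :
    ¬ AP t q := by
  intro h
  by_cases h3 : 3 ≤ i.val
  · have h1 := h.2 i h3 hi
    have h2 := hp.2 i h3 hi
    exact (hqi.1 h1) h2
  · push Not at h3
    obtain ⟨k, hk2, hki⟩ : ∃ k : Fin n, k.val ≤ 2 ∧ k ≠ i := by
      by_cases h0 : i.val = 0
      · exact ⟨⟨1, by omega⟩, by simp, fun h => by rw [← h] at h0; simp at h0⟩
      · exact ⟨⟨0, by omega⟩, by simp, fun h => by rw [← h] at h0; simp at h0⟩
    have e1 := h.1 k i hk2 (by omega)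
    have e2 := hp.1 k i hk2 (by omega)
    have e3 := hq k (by omega) hki
    tauto

/-- the coordinate to flip is unique -/
theorem flip_unique {n t : ℕ} (ht : 2 ≤ t) (hn : t < n) (p₁ p₂ q : Fin n → Prop) (h₁ : AP t p₁)
    (h₂ : AP t p₂) (i₁ i₂ : Fin n) (hi₁ : i₁.val ≤ t) (hi₂ : i₂.val ≤ t) (e₁ : q i₁ ↔ ¬ p₁ i₁)
    (e₂ : q i₂ ↔ ¬ p₂ i₂) (f₁ : ∀ x : Fin n, x.val ≤ t → x ≠ i₁ → (q x ↔ p₁ x))
    (f₂ : ∀ x : Fin n, x.val ≤ t → x ≠ i₂ → (q x ↔ p₂ x)) : i₁ = i₂ := by
  by_contra hne
  by_cases h3 : 3 ≤ i₁.val
  · have a1 := h₁.2 i₁ h3 hi₁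
    have a2 := h₂.2 i₁ h3 hi₁
    have a3 := f₂ i₁ hi₁ hne
    tauto
  by_cases h4 : 3 ≤ i₂.val
  · have a1 := h₁.2 i₂ h4 hi₂
    have a2 := h₂.2 i₂ h4 hi₂
    have a3 := f₁ i₂ hi₂ (fun h => hne h.symm)
    tauto
  push Not at h3 h4
  obtain ⟨k, hk2, hk₁, hk₂⟩ : ∃ k : Fin n, k.val ≤ 2 ∧ k ≠ i₁ ∧ k ≠ i₂ := by
    have hv : i₁.val ≠ i₂.val := fun h => hne (Fin.ext h)
    by_cases h0 : i₁.val ≠ 0 ∧ i₂.val ≠ 0
    · exact ⟨⟨0, by omega⟩, by simp, fun h => by rw [← h] at h0; simp at h0,
        fun h => by rw [← h] at h0; simp at h0⟩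
    · by_cases h1 : i₁.val ≠ 1 ∧ i₂.val ≠ 1
      · exact ⟨⟨1, by omega⟩, by simp, fun h => by rw [← h] at h1; simp at h1,
          fun h => by rw [← h] at h1; simp at h1⟩
      · refine ⟨⟨2, by omega⟩, by simp, fun h => ?_, fun h => ?_⟩
        · rw [← h] at h0 h1 hv; simp only at h0 h1 hv; omega
        · rw [← h] at h0 h1 hv; simp only at h0 h1 hv; omega
  have a1 := h₁.1 k i₁ hk2 (by omega)
  have a2 := h₂.1 k i₁ hk2 (by omega)
  have a3 := f₂ i₁ hi₁ hne
  have a4 := f₁ k (by omega) hk₁
  have a5 := f₂ k (by omega) hk₂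
  tauto

open scoped Classical in
/-- product of a monomial and of side conditions -/
noncomputable def G {n : ℕ} (m : ℕ) (s : Finset (Fin n × Fin n)) (I : Finset (Fin n)) :
    Perm (Fin n) → ℝ :=
  fun σ => if (∀ p ∈ s, σ p.1 = p.2) ∧ (∀ x ∈ I, side m σ x) then 1 else 0

theorem G_mem {n t m : ℕ} (htn : t ≤ n) (I : Finset (Fin n)) :
    ∀ s : Finset (Fin n × Fin n), s.card + I.card ≤ t → G m s I ∈ U n t := by
  classical
  induction I using Finset.induction_on with
  | empty =>
    intro s hs
    have : G m s (∅ : Finset (Fin n)) = mon s := by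
      funext σ
      simp [G, mon]
    rw [this]
    rw [card_empty, Nat.add_zero] at hs
    exact mon_mem htn (t - s.card) s (by omega)
  | insert i I hi ih =>
    intro s hs
    rw [card_insert_of_notMem hi] at hs
    have : G m s (insert i I) = ∑ y ∈ (univ.filter fun y : Fin n => y.val < m),
        G m (insert (i, y) s) I := by
      funext σ
      rw [Finset.sum_apply]
      by_cases hside : side m σ i
      · rw [Finset.sum_eq_single (σ i)]
        · simp only [G, mem_insert, forall_eq_or_imp, true_and]
          congr 1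
          apply propext
          tauto
        · intro y _ hy
          simp only [G, mem_insert, forall_eq_or_imp, ite_eq_right_iff, one_ne_zero, imp_false]
          intro h
          exact hy h.1.1.symm
        · intro h
          exact absurd (show σ i ∈ univ.filter (fun y : Fin n => y.val < m) from
            mem_filter.2 ⟨mem_univ _, hside⟩) h
      · rw [Finset.sum_eq_zero]
        · simp only [G, mem_insert, forall_eq_or_imp, ite_eq_right_iff, one_ne_zero, imp_false]
          tauto
        · intro y hy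
          simp only [G, mem_insert, forall_eq_or_imp, ite_eq_right_iff, one_ne_zero, imp_false]
          intro h
          apply hside
          have h1 := h.1.1
          unfold side
          rw [h1]
          exact (mem_filter.1 hy).2
    rw [this]
    refine Submodule.sum_mem _ fun y _ => ih _ ?_
    have := card_insert_le (i, y) s
    omega

theorem G_insert {n m : ℕ} (I : Finset (Fin n)) (i : Fin n) (σ : Perm (Fin n)) :
    G m ∅ (insert i I) σ = (open scoped Classical in if side m σ i then G m ∅ I σ else 0) := by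
  classical
  by_cases h : side m σ i
  · simp [G, h]
  · simp [G, h]

theorem ind_Fm_mem {n m t : ℕ} (ht : 2 ≤ t) (htn : t < n) : ind (Fm n m t) ∈ U n t := by
  classical
  set x0 : Fin n := ⟨0, by omega⟩ with hx0
  set x1 : Fin n := ⟨1, by omega⟩ with hx1
  set x2 : Fin n := ⟨2, by omega⟩ with hx2
  set B : Finset (Fin n) := univ.filter fun x : Fin n => 3 ≤ x.val ∧ x.val ≤ t with hB
  have hBc : B.card ≤ t - 2 := by
    have h1 : (B.image Fin.val) ⊆ Icc 3 t := by
      intro v hv
      obtain ⟨x, hx, rfl⟩ := mem_image.1 hv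
      exact mem_Icc.2 (mem_filter.1 hx).2
    have h2 := card_le_card h1
    rw [card_image_of_injective _ Fin.val_injective, Nat.card_Icc] at h2
    omega
  have key : ind (Fm n m t) = G m ∅ B - G m ∅ (insert x0 B) - G m ∅ (insert x1 B)
      - G m ∅ (insert x2 B) + G m ∅ (insert x0 (insert x1 B)) + G m ∅ (insert x0 (insert x2 B))
      + G m ∅ (insert x1 (insert x2 B)) := by
    funext σ
    simp only [Pi.add_apply, Pi.sub_apply, G_insert]
    have hmem : σ ∈ Fm n m t ↔ ((side m σ x0 ↔ side m σ x1) ∧ (side m σ x1 ↔ side m σ x2)) ∧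
        (∀ x ∈ B, side m σ x) := by
      rw [mem_Fm]
      constructor
      · rintro ⟨h1, h2⟩
        refine ⟨⟨h1 _ _ (by simp [hx0]) (by simp [hx1]), h1 _ _ (by simp [hx1]) (by simp [hx2])⟩, ?_⟩
        intro x hx
        have := (mem_filter.1 hx).2
        exact h2 x this.1 this.2
      · rintro ⟨⟨h1, h2⟩, h3⟩
        refine ⟨?_, fun x hx1 hx2 => h3 x (mem_filter.2 ⟨mem_univ _, hx1, hx2⟩)⟩
        have h012 : ∀ x : Fin n, x.val ≤ 2 → (side m σ x ↔ side m σ x0) := by
          intro x hx
          have : x = x0 ∨ x = x1 ∨ x = x2 := by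
            have : x.val = 0 ∨ x.val = 1 ∨ x.val = 2 := by omega
            rcases this with h | h | h
            · left; exact Fin.ext h
            · right; left; exact Fin.ext h
            · right; right; exact Fin.ext h
          rcases this with rfl | rfl | rfl
          · exact Iff.rfl
          · exact h1.symm
          · exact (h1.trans h2).symm
        intro x y hx hy
        exact (h012 x hx).trans (h012 y hy).symm
    have hG : G m ∅ B σ = if (∀ x ∈ B, side m σ x) then 1 else 0 := by
      simp [G]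
    rw [hG]
    unfold ind
    simp only [hmem]
    by_cases hQ : ∀ x ∈ B, side m σ x <;> by_cases a0 : side m σ x0 <;>
      by_cases a1 : side m σ x1 <;> by_cases a2 : side m σ x2 <;> simp [hQ, a0, a1, a2]
  rw [key]
  have hc : ∀ I : Finset (Fin n), I.card ≤ t → G m ∅ I ∈ U n t := fun I hI =>
    G_mem htn.le I ∅ (by simpa using hI)
  have c1 : ∀ x : Fin n, (insert x B).card ≤ t := fun x => by
    have := card_insert_le x B
    omega
  have c2 : ∀ x y : Fin n, (insert x (insert y B)).card ≤ t := fun x y => by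
    have := card_insert_le x (insert y B)
    have := card_insert_le y B
    omega
  exact Submodule.add_mem _ (Submodule.add_mem _ (Submodule.add_mem _ (Submodule.sub_mem _
    (Submodule.sub_mem _ (Submodule.sub_mem _ (hc _ (by omega)) (hc _ (c1 _))) (hc _ (c1 _)))
    (hc _ (c1 _))) (hc _ (c2 _ _))) (hc _ (c2 _ _))) (hc _ (c2 _ _))

/-- the relation of the double count -/
def Rl {n : ℕ} (m t : ℕ) (σ σ' : Perm (Fin n)) : Prop :=
  ∃ i j : Fin n, i.val ≤ t ∧ t < j.val ∧ (side m σ' j ↔ ¬ side m σ' i) ∧ σ = σ' * swap i j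

theorem card_side {n m : ℕ} (hm : m ≤ n) (σ : Perm (Fin n)) :
    (univ.filter fun j : Fin n => (σ j).val < m).card = m := by
  classical
  have h1 : (univ.filter fun j : Fin n => (σ j).val < m).card =
      (univ.filter fun y : Fin n => y.val < m).card := by
    apply card_bij (fun j _ => σ j)
    · intro j hj
      exact mem_filter.2 ⟨mem_univ _, (mem_filter.1 hj).2⟩
    · intro a _ b _ h
      exact σ.injective h
    · intro y hy
      exact ⟨σ⁻¹ y, mem_filter.2 ⟨mem_univ _, by simpa using (mem_filter.1 hy).2⟩, by simp⟩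
  rw [h1]
  have h2 : (univ.filter fun y : Fin n => y.val < m).card =
      ((univ.filter fun y : Fin n => y.val < m).image Fin.val).card :=
    (card_image_of_injective _ Fin.val_injective).symm
  rw [h2]
  have h3 : (univ.filter fun y : Fin n => y.val < m).image Fin.val = range m := by
    ext v
    rw [mem_image, mem_range]
    constructor
    · rintro ⟨x, hx, rfl⟩
      exact (mem_filter.1 hx).2
    · intro hv
      exact ⟨⟨v, by omega⟩, mem_filter.2 ⟨mem_univ _, hv⟩, rfl⟩
  rw [h3, card_range]

theorem card_not_side {n m : ℕ} (hm : m ≤ n) (σ : Perm (Fin n)) :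
    (univ.filter fun j : Fin n => ¬ (σ j).val < m).card = n - m := by
  classical
  have h1 := card_filter_add_card_filter_not (s := (univ : Finset (Fin n)))
    (fun j : Fin n => (σ j).val < m)
  rw [card_side hm, card_univ, Fintype.card_fin] at h1
  omega

open scoped Classical in
theorem card_other {n m : ℕ} (hm : 2 * m ≤ n) (σ : Perm (Fin n)) (P : Prop) :
    m ≤ (univ.filter fun j : Fin n => (side m σ j ↔ ¬ P)).card ∧
      (univ.filter fun j : Fin n => (side m σ j ↔ ¬ P)).card ≤ n - m := by
  classical
  have a1 := card_side (by omega : m ≤ n) σ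
  have a2 := card_not_side (by omega : m ≤ n) σ
  by_cases hP : P
  · have : (univ.filter fun j : Fin n => (side m σ j ↔ ¬ P)) =
        univ.filter fun j : Fin n => ¬ (σ j).val < m := by
      ext j
      simp [side, hP]
    rw [this, a2]
    omega
  · have : (univ.filter fun j : Fin n => (side m σ j ↔ ¬ P)) =
        univ.filter fun j : Fin n => (σ j).val < m := by
      ext j
      simp [side, hP]
    rw [this, a1]
    omega

theorem card_low {n t : ℕ} (h : t < n) : (univ.filter fun x : Fin n => x.val ≤ t).card = t + 1 := by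
  classical
  have h2 : (univ.filter fun y : Fin n => y.val ≤ t).card =
      ((univ.filter fun y : Fin n => y.val ≤ t).image Fin.val).card :=
    (card_image_of_injective _ Fin.val_injective).symm
  rw [h2]
  have h3 : (univ.filter fun y : Fin n => y.val ≤ t).image Fin.val = range (t + 1) := by
    ext v
    rw [mem_image, mem_range]
    constructor
    · rintro ⟨x, hx, rfl⟩
      have := (mem_filter.1 hx).2
      omega
    · intro hv
      exact ⟨⟨v, by omega⟩, mem_filter.2 ⟨mem_univ _, by simp only; omega⟩, rfl⟩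
  rw [h3, card_range]

open scoped Classical in
/-- a union of `t`-cosets leaks out of the family -/
theorem leak_Fm {n m t : ℕ} (ht : 2 ≤ t) (htn : t < n) (hm : 2 * m ≤ n)
    (C : Finset (Perm (Fin n))) (hC : IsUnionOfCosets t C) :
    (C ∩ Fm n m t).card * (m - (2 * t + 1)) ≤ (C \ Fm n m t).card * (n - m) := by
  obtain ⟨T, hT⟩ := hC
  refine card_mul_le_card_mul (Rl m t) ?_ ?_
  · intro σ hσ
    obtain ⟨hσC, hσF⟩ := mem_inter.1 hσ
    rw [mem_Fm] at hσF
    obtain ⟨⟨a, b⟩, hab, hσT⟩ := (hT σ).1 hσC
    have hσT' : ∀ i, σ (a i) = b i := (mem_filter.1 hσT).2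
    set F : Finset (Fin n) := univ.image a with hF
    have hFc : F.card ≤ t := card_image_le.trans (by simp)
    set L : Finset (Fin n) := univ.filter fun x : Fin n => x.val ≤ t with hL
    have hLc : L.card = t + 1 := card_low htn
    obtain ⟨i, hiL, hiF⟩ : ∃ i ∈ L, i ∉ F := by
      by_contra hcon
      push Not at hcon
      have := card_le_card (show L ⊆ F from hcon)
      omega
    have hi : i.val ≤ t := (mem_filter.1 hiL).2
    set J : Finset (Fin n) := (univ.filter fun j : Fin n => (side m σ j ↔ ¬ side m σ i)) \ (L ∪ F)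
      with hJ
    have hJc : m - (2 * t + 1) ≤ J.card := by
      have h1 := (card_other hm σ (side m σ i)).1
      have h2 := le_card_sdiff (L ∪ F) (univ.filter fun j : Fin n => (side m σ j ↔ ¬ side m σ i))
      have h3 := card_union_le L F
      rw [← hJ] at h2
      omega
    refine hJc.trans ?_
    refine card_le_card_of_injOn (fun j => σ * swap i j) ?_ ?_
    · intro j hj
      rw [mem_coe, hJ, mem_sdiff, mem_filter, mem_union, not_or] at hj
      obtain ⟨⟨_, hside⟩, hjL, hjF⟩ := hj
      have hjt : t < j.val := by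
        by_contra hcon
        exact hjL (mem_filter.2 ⟨mem_univ _, by omega⟩)
      have hij : i ≠ j := fun h => by rw [h] at hi; omega
      have ei : (σ * swap i j) i = σ j := by simp
      have ej : (σ * swap i j) j = σ i := by simp
      have eo : ∀ w, w ≠ i → w ≠ j → (σ * swap i j) w = σ w := by
        intro w h1 h2
        rw [Perm.mul_apply, swap_apply_of_ne_of_ne h1 h2]
      rw [mem_coe, mem_bipartiteAbove, mem_sdiff]
      refine ⟨⟨?_, ?_⟩, i, j, hi, hjt, ?_, ?_⟩
      · rw [hT]
        refine ⟨(a, b), hab, mem_filter.2 ⟨mem_univ _, fun k => ?_⟩⟩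
        change (σ * swap i j) (a k) = b k
        rw [eo, hσT']
        · rintro rfl
          exact hiF (mem_image.2 ⟨k, mem_univ _, rfl⟩)
        · rintro rfl
          exact hjF (mem_image.2 ⟨k, mem_univ _, rfl⟩)
      · rw [mem_Fm]
        apply flip_notin ht htn (side m σ) _ hσF i hi
        · show side m (σ * swap i j) i ↔ ¬ side m σ i
          unfold side at hside ⊢
          rw [ei]
          exact hside
        · intro x hx hxi
          show side m (σ * swap i j) x ↔ side m σ x
          unfold side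
          rw [eo x hxi (fun h => by rw [h] at hx; omega)]
      · show side m (σ * swap i j) j ↔ ¬ side m (σ * swap i j) i
        unfold side at hside ⊢
        rw [ei, ej]
        tauto
      · rw [mul_assoc, swap_mul_self, mul_one]
    · intro j hj j' hj' heq
      simp only at heq
      have h1 : (σ * swap i j) i = (σ * swap i j') i := by rw [heq]
      simpa using h1
  · intro σ' _
    by_cases hne : (bipartiteBelow (Rl m t) (C ∩ Fm n m t) σ').Nonempty
    · obtain ⟨σ, hσ⟩ := hne
      obtain ⟨hσ1, i, j, hi, hj, hside, rfl⟩ := (mem_bipartiteBelow _).1 hσ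
      have hA := (mem_Fm _).1 (mem_inter.1 hσ1).2
      refine le_trans ?_ (card_other hm σ' (side m σ' i)).2
      have hpat : ∀ k l : Fin n, k.val ≤ t → t < l.val → (side m σ' l ↔ ¬ side m σ' k) →
          (side m σ' k ↔ ¬ side m (σ' * swap k l) k) ∧
          ∀ x : Fin n, x.val ≤ t → x ≠ k → (side m σ' x ↔ side m (σ' * swap k l) x) := by
        intro k l hk hl hs
        constructor
        · unfold side at hs ⊢
          rw [Perm.mul_apply, swap_apply_left]
          tauto
        · intro x hx hxk
          unfold side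
          rw [Perm.mul_apply, swap_apply_of_ne_of_ne hxk (fun h => by rw [h] at hx; omega)]
      have hsub : bipartiteBelow (Rl m t) (C ∩ Fm n m t) σ' ⊆
          (univ.filter fun j : Fin n => (side m σ' j ↔ ¬ side m σ' i)).image
            (fun z : Fin n => σ' * swap i z) := by
        intro τ hτ
        obtain ⟨hτ1, i', j', hi', hj', hside', rfl⟩ := (mem_bipartiteBelow _).1 hτ
        have hA' := (mem_Fm _).1 (mem_inter.1 hτ1).2
        have hii : i' = i := by
          obtain ⟨u1, u2⟩ := hpat i j hi hj hside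
          obtain ⟨v1, v2⟩ := hpat i' j' hi' hj' hside'
          exact (flip_unique ht htn _ _ (side m σ') hA hA' i i' hi hi' u1 v1 u2 v2).symm
        subst hii
        exact mem_image.2 ⟨j', mem_filter.2 ⟨mem_univ _, hside'⟩, rfl⟩
      exact (card_le_card hsub).trans card_image_le
    · rw [not_nonempty_iff_eq_empty] at hne
      rw [hne]
      simp

theorem Fm_nonempty {n m t : ℕ} (ht : 2 ≤ t) (h : t < m) : (Fm n m t).Nonempty := by
  refine ⟨1, (mem_Fm _).2 ⟨?_, ?_⟩⟩
  · intro x y hx hy
    unfold side
    simp only [Perm.one_apply]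
    constructor <;> intro <;> omega
  · intro x _ hx
    unfold side
    simp only [Perm.one_apply]
    omega

end Pool.Agent.Y906.SD
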